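import Mathlib
import Pool.Agent.H53Ach.C

set_option autoImplicit false

/-!
# The topological type of the achievement set of `1 / (2 ^ n + c n)`

For a bounded sequence `c ≥ 0` let `x n = 1 / (2 ^ n + c n)`, `n ≥ 1`. The sequence of the problem
is the one with `c n = 1` for even `n` and `c n = 0` for odd `n`.
-/

namespace Pool.Agent.Results.MP_1e50ba_an.PerturbationPatterns

open Filter Topology MeasureTheory
open Pool.Agent.H53Ach.Seq (seq_pos seq_le seq_ge seq_le2 seq_dist summable_seq tail_ge cantorMain)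

/-- The term `1 / (2 ^ n + c n)`. -/
noncomputable def seq (c : ℕ → ℝ) (n : ℕ) : ℝ := 1 / (2 ^ n + c n)

/-- The achievement set of `x 1, x 2, …`: all sums of `x n` over `n ∈ A`, `A` a set of positive
integers. -/
def achSet (x : ℕ → ℝ) : Set ℝ := {s : ℝ | ∃ A : Set ℕ, A ⊆ {n | 1 ≤ n} ∧ s = ∑' n, A.indicator x n}

/-- A multi-interval set: a nonempty finite union of closed intervals with more than one point. -/
def IsMultiInterval (K : Set ℝ) : Prop :=
  ∃ F : Finset (ℝ × ℝ), F.Nonempty ∧ (∀ p ∈ F, p.1 < p.2) ∧ K = ⋃ p ∈ F, Set.Icc p.1 p.2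

/-- `K` is homeomorphic to the ternary Cantor set. -/
def IsCantor (K : Set ℝ) : Prop := Nonempty (K ≃ₜ cantorSet)

open Classical in
/-- The perturbation pattern given by a set `P`: `1` on `P` and `0` elsewhere; so the terms are
`1 / (2 ^ n + 1)` for `n ∈ P` and `1 / 2 ^ n` for `n ∉ P`. -/
noncomputable def pat (P : Set ℕ) (n : ℕ) : ℝ := if n ∈ P then 1 else 0

variable {c : ℕ → ℝ} {C : ℝ}

theorem hyp (hc : ∀ n, 0 ≤ c n) (hC : ∀ n, c n ≤ C) :
    Pool.Agent.Y805.AS.Hyp (seq c) (fun n => 8 * (C + 1) * (1 / 4 : ℝ) ^ n) := by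
  have hC0 : 0 ≤ C := (hc 0).trans (hC 0)
  refine ⟨fun n _ => seq_pos hc n, fun n => by positivity, fun n => ?_, fun n _ => ?_, fun η hη => ?_⟩
  · have : (0 : ℝ) < 8 * (C + 1) * (1 / 4) ^ n := by positivity
    show 8 * (C + 1) * (1 / 4 : ℝ) ^ (n + 1) ≤ 8 * (C + 1) * (1 / 4) ^ n / 2
    rw [pow_succ]
    linarith
  · refine (seq_dist hc hC n).trans ?_
    have : (0 : ℝ) < (1 / 4) ^ n := by positivity
    show C * (1 / 4 : ℝ) ^ n ≤ 8 * (C + 1) * (1 / 4) ^ n / 8
    linarith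
  · have h : Tendsto (fun n : ℕ => 8 * (C + 1) * (1 / 2 : ℝ) ^ n) atTop (𝓝 (8 * (C + 1) * 0)) :=
      (tendsto_pow_atTop_nhds_zero_of_lt_one (by norm_num) (by norm_num)).const_mul _
    rw [mul_zero] at h
    obtain ⟨n₀, hn₀⟩ := ((tendsto_order.1 h).2 η hη).exists_forall_of_atTop
    refine ⟨n₀, fun n hn => ?_⟩
    have h1 := (hn₀ n hn).le
    have h3 : (0 : ℝ) < (1 / 2) ^ n := by positivity
    calc 8 * (C + 1) * (1 / 4 : ℝ) ^ n = (8 * (C + 1) * (1 / 2) ^ n) * (1 / 2) ^ n := by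
          rw [mul_assoc (8 * (C + 1)), ← mul_pow]; norm_num
      _ ≤ η * (1 / 2) ^ n := mul_le_mul_of_nonneg_right h1 h3.le
      _ = η * (1 / 2 ^ n) := by rw [one_div_pow]

theorem vol_pos (hc : ∀ n, 0 ≤ c n) (hC : ∀ n, c n ≤ C) : 0 < volume (achSet (seq c)) := by
  refine Pool.Agent.Y805.AS.measure_pos (hyp hc hC) ?_
  have h : (fun n : ℕ => 2 ^ n * (8 * (C + 1) * (1 / 4 : ℝ) ^ n)) =
      fun n => 8 * (C + 1) * (1 / 2 : ℝ) ^ n := by
    funext n
    rw [mul_left_comm, ← mul_pow]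
    norm_num
  rw [h]
  exact summable_geometric_two.mul_left _

/-- splitting off the first `N` terms -/
theorem split_sum (hc : ∀ n, 0 ≤ c n) (N : ℕ) (A : Set ℕ) (hA : A ⊆ {n | 1 ≤ n}) (B : Finset ℕ)
    (hB : B ⊆ Finset.Icc 1 N) (hAB : ∀ n ∈ Finset.Icc 1 N, n ∈ B ↔ n ∈ A) :
    ∑' n, A.indicator (seq c) n = ∑ n ∈ B, seq c n +
      (∑' n, {n : ℕ | 1 ≤ n ∧ n + N ∈ A}.indicator (seq (fun n => c (n + N) / 2 ^ N)) n) / 2 ^ N := by
  classical
  have hset : B = (Finset.range (N + 1)).filter (· ∈ A) := by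
    ext n
    rw [Finset.mem_filter, Finset.mem_range]
    constructor
    · intro h3
      have h4 := hB h3
      have h5 := (hAB n h4).1 h3
      rw [Finset.mem_Icc] at h4
      exact ⟨by omega, h5⟩
    · rintro ⟨h1, h2⟩
      have h3 : 1 ≤ n := hA h2
      exact (hAB n (Finset.mem_Icc.2 ⟨h3, by omega⟩)).2 h2
  have hs : Summable (A.indicator (seq c)) := (summable_seq hc).indicator A
  rw [hset, ← hs.sum_add_tsum_nat_add (N + 1), Finset.sum_filter]
  refine congrArg₂ (· + ·) (Finset.sum_congr rfl (fun n _ => Set.indicator_apply _ _ _)) ?_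
  have hs' : Summable ({n : ℕ | 1 ≤ n ∧ n + N ∈ A}.indicator (seq (fun n => c (n + N) / 2 ^ N))) :=
    (summable_seq (fun n => div_nonneg (hc _) (by positivity))).indicator _
  rw [hs'.tsum_eq_zero_add, Set.indicator_of_notMem (by simp), zero_add, div_eq_mul_inv,
    ← tsum_mul_right]
  refine tsum_congr (fun n => ?_)
  have h1 : seq (fun n => c (n + N) / 2 ^ N) (n + 1) * (2 ^ N)⁻¹ = seq c (n + (N + 1)) := by
    have h2 := hc (n + 1 + N)
    unfold seq
    rw [show n + (N + 1) = n + 1 + N by ring, pow_add 2 (n + 1) N]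
    have h3 : (0 : ℝ) < 2 ^ (n + 1) * 2 ^ N + c (n + 1 + N) := by positivity
    have h4 : (0 : ℝ) < 2 ^ (n + 1) + c (n + 1 + N) / 2 ^ N := by positivity
    rw [← one_div, one_div_mul_one_div]
    congr 1
    field_simp
  by_cases hn : n + (N + 1) ∈ A
  · rw [Set.indicator_of_mem hn, Set.indicator_of_mem
      (show n + 1 ∈ {n : ℕ | 1 ≤ n ∧ n + N ∈ A} from ⟨by omega, by
        rwa [show n + 1 + N = n + (N + 1) by ring]⟩), h1]
  · rw [Set.indicator_of_notMem hn, Set.indicator_of_notMem, zero_mul]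
    rintro ⟨-, h⟩
    exact hn (by rwa [show n + 1 + N = n + (N + 1) by ring] at h)

/-- Kakeya's case: no gap condition beyond `N`. -/
theorem multi (hc : ∀ n, 0 ≤ c n) (hC : ∀ n, c n ≤ C)
    (hk : ∀ᶠ k in atTop, seq c k ≤ ∑' j, seq c (k + 1 + j)) : IsMultiInterval (achSet (seq c)) := by
  classical
  obtain ⟨N, hN⟩ := hk.exists_forall_of_atTop
  set c' : ℕ → ℝ := fun n => c (n + N) / 2 ^ N with hc'def
  have hc' : ∀ n, 0 ≤ c' n := fun n => div_nonneg (hc _) (by positivity)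
  have hC0 : 0 ≤ C := (hc 0).trans (hC 0)
  have hC' : ∀ n, c' n ≤ C := fun n => by
    have h1 : (1 : ℝ) ≤ 2 ^ N := one_le_pow₀ (by norm_num)
    rw [hc'def]
    exact (div_le_self (hc _) h1).trans (hC _)
  have hscale : ∀ n, seq c' n = 2 ^ N * seq c (n + N) := by
    intro n
    have h2 := hc (n + N)
    have h3 : (0 : ℝ) < 2 ^ n * 2 ^ N + c (n + N) := by positivity
    have h4 : (0 : ℝ) < 2 ^ n + c (n + N) / 2 ^ N := by positivity
    simp only [seq, hc'def]
    rw [pow_add 2 n N]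
    field_simp
  have hint : achSet (seq c') = Set.Icc 0 (Pool.Agent.Y805.AS.r (seq c') 0) := by
    refine Pool.Agent.Y805.AS.interval (hyp hc' hC') (fun n => ?_)
    have h1 := hN (n + 1 + N) (by omega)
    have h2 : Pool.Agent.Y805.AS.r (seq c') (n + 1) = 2 ^ N * ∑' j, seq c (n + 1 + N + 1 + j) := by
      rw [Pool.Agent.Y805.AS.r, ← tsum_mul_left]
      refine tsum_congr (fun j => ?_)
      rw [hscale, show j + (n + 1 + 1) + N = n + 1 + N + 1 + j by ring]
    rw [h2, hscale]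
    exact mul_le_mul_of_nonneg_left h1 (by positivity)
  have hr := (hyp hc' hC').r_pos 0
  set ρ := Pool.Agent.Y805.AS.r (seq c') 0 with hρ
  refine ⟨(Finset.Icc 1 N).powerset.image (fun B => (∑ n ∈ B, seq c n, ∑ n ∈ B, seq c n + ρ / 2 ^ N)),
    ⟨_, Finset.mem_image_of_mem _ (Finset.empty_mem_powerset _)⟩, ?_, ?_⟩
  · intro p hp
    obtain ⟨B, -, rfl⟩ := Finset.mem_image.1 hp
    have : 0 < ρ / 2 ^ N := by positivity
    show ∑ n ∈ B, seq c n < ∑ n ∈ B, seq c n + ρ / 2 ^ N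
    linarith
  · ext t
    simp only [Set.mem_iUnion, Finset.mem_image, Finset.mem_powerset, exists_prop]
    constructor
    · rintro ⟨A, hA, rfl⟩
      have h1 := split_sum hc N A hA ((Finset.Icc 1 N).filter (· ∈ A)) (Finset.filter_subset _ _)
        (fun n hn => by rw [Finset.mem_filter]; exact ⟨fun h => h.2, fun h => ⟨hn, h⟩⟩)
      have h2 : (∑' n, {n : ℕ | 1 ≤ n ∧ n + N ∈ A}.indicator (seq c') n) ∈ achSet (seq c') :=
        ⟨_, fun n hn => hn.1, rfl⟩
      rw [hint] at h2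
      refine ⟨_, ⟨(Finset.Icc 1 N).filter (· ∈ A), Finset.filter_subset _ _, rfl⟩, ?_⟩
      rw [h1, Set.mem_Icc]
      have h3 : 0 ≤ (∑' n, {n : ℕ | 1 ≤ n ∧ n + N ∈ A}.indicator (seq c') n) / 2 ^ N :=
        div_nonneg h2.1 (by positivity)
      have h4 : (∑' n, {n : ℕ | 1 ≤ n ∧ n + N ∈ A}.indicator (seq c') n) / 2 ^ N ≤ ρ / 2 ^ N :=
        div_le_div_of_nonneg_right h2.2 (by positivity)
      constructor
      · show ∑ n ∈ (Finset.Icc 1 N).filter (· ∈ A), seq c n ≤ _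
        linarith
      · show _ ≤ ∑ n ∈ (Finset.Icc 1 N).filter (· ∈ A), seq c n + ρ / 2 ^ N
        linarith
    · rintro ⟨p, ⟨B, hB, rfl⟩, h1, h2⟩
      have h1' : ∑ n ∈ B, seq c n ≤ t := h1
      have h2' : t ≤ ∑ n ∈ B, seq c n + ρ / 2 ^ N := h2
      have h3 : (t - ∑ n ∈ B, seq c n) * 2 ^ N ∈ achSet (seq c') := by
        rw [hint]
        refine ⟨mul_nonneg (by linarith) (by positivity), ?_⟩
        rw [← le_div_iff₀ (by positivity)]
        linarith
      obtain ⟨A', hA', h4⟩ := h3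
      set A : Set ℕ := ↑B ∪ {n | ∃ m ∈ A', n = m + N} with hAdef
      have hAs : A ⊆ {n | 1 ≤ n} := by
        rintro n (hn | ⟨m, hm, rfl⟩)
        · exact (Finset.mem_Icc.1 (hB hn)).1
        · have h5 : 1 ≤ m := hA' hm
          show 1 ≤ m + N
          omega
      have h5 := split_sum hc N A hAs B hB (fun n hn => by
        rw [hAdef]
        refine ⟨fun h => Or.inl h, ?_⟩
        rintro (h | ⟨m, hm, rfl⟩)
        · exact h
        · have h6 : 1 ≤ m := hA' hm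
          rw [Finset.mem_Icc] at hn
          omega)
      have h6 : {n : ℕ | 1 ≤ n ∧ n + N ∈ A} = A' := by
        ext n
        constructor
        · rintro ⟨h7, h8 | ⟨m, hm, h9⟩⟩
          · have := (Finset.mem_Icc.1 (hB h8)).2
            omega
          · have : n = m := by omega
            rwa [this]
        · intro h7
          exact ⟨hA' h7, Or.inr ⟨n, h7, rfl⟩⟩
      rw [h6, ← h4, mul_div_assoc, div_self (by positivity), mul_one] at h5
      exact ⟨A, hAs, by rw [h5]; ring⟩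

theorem not_cantor {K : Set ℝ} (hK : IsMultiInterval K) : ¬ IsCantor K := by
  rintro ⟨e⟩
  obtain ⟨F, ⟨p, hp⟩, hlt, rfl⟩ := hK
  have hsub : ∀ t ∈ Set.Icc p.1 p.2, t ∈ ⋃ p ∈ F, Set.Icc p.1 p.2 := fun t ht =>
    Set.mem_biUnion hp ht
  have hpc : PreconnectedSpace (Set.Icc p.1 p.2) := Subtype.preconnectedSpace isPreconnected_Icc
  set f : Set.Icc p.1 p.2 → (ℕ → Bool) := fun t =>
    cantorSetHomeomorphNatToBool (e ⟨t.1, hsub t.1 t.2⟩) with hf
  have hfc : Continuous f := cantorSetHomeomorphNatToBool.continuous.comp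
    (e.continuous.comp (continuous_subtype_val.subtype_mk _))
  have h1 := (isPreconnected_range hfc).subsingleton
  have h2 : f ⟨p.1, Set.left_mem_Icc.2 (hlt p hp).le⟩ = f ⟨p.2, Set.right_mem_Icc.2 (hlt p hp).le⟩ :=
    h1 (Set.mem_range_self _) (Set.mem_range_self _)
  have h3 := e.injective (cantorSetHomeomorphNatToBool.injective h2)
  have h4 := congrArg (fun z => z.1) h3
  simp only at h4
  exact absurd h4 (hlt p hp).ne

theorem multi_of (hc : ∀ n, 0 ≤ c n) (hC : ∀ n, c n ≤ C) {ε : ℝ} (hε : 0 < ε)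
    (hk : ∀ᶠ k in atTop, ∑' j, c (k + 1 + j) / 4 ^ (j + 1) + ε ≤ c k) :
    IsMultiInterval (achSet (seq c)) := by
  refine multi hc hC ?_
  have hC0 : 0 ≤ C := (hc 0).trans (hC 0)
  have h1 : Tendsto (fun n : ℕ => C ^ 2 * (1 / 2 : ℝ) ^ n) atTop (𝓝 (C ^ 2 * 0)) :=
    (tendsto_pow_atTop_nhds_zero_of_lt_one (by norm_num) (by norm_num)).const_mul _
  rw [mul_zero] at h1
  filter_upwards [hk, h1.eventually (gt_mem_nhds hε)] with k h2 h3
  have h4 := seq_le2 hc k
  have h5 := tail_ge hc hC k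
  have h6 : (0 : ℝ) < (1 / 4) ^ k := by positivity
  have h7 : (c k) ^ 2 * (1 / 8 : ℝ) ^ k ≤ (C ^ 2 * (1 / 2) ^ k) * (1 / 4) ^ k := by
    rw [mul_assoc, ← mul_pow, show (1 / 2 : ℝ) * (1 / 4) = 1 / 8 by norm_num]
    exact mul_le_mul_of_nonneg_right (pow_le_pow_left₀ (hc _) (hC _) 2) (by positivity)
  have h8 := mul_le_mul_of_nonneg_right h3.le h6.le
  have h9 := mul_le_mul_of_nonneg_left h2 h6.le
  have h10 : Pool.Agent.H53Ach.Seq.seq c k ≤ ∑' j, Pool.Agent.H53Ach.Seq.seq c (k + 1 + j) := by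
    linarith
  exact h10

theorem pat_nonneg (P : Set ℕ) (n : ℕ) : 0 ≤ pat P n := by
  unfold pat; split_ifs <;> norm_num

theorem pat_le (P : Set ℕ) (n : ℕ) : pat P n ≤ 1 := by
  unfold pat; split_ifs <;> norm_num

theorem pat_switch (P : Set ℕ) {k : ℕ} (h1 : k ∉ P) (h2 : k + 1 ∈ P) :
    pat P k + 1 / 4 ≤ ∑' j, pat P (k + 1 + j) / 4 ^ (j + 1) := by
  have hs := Pool.Agent.H53Ach.Seq.summ_c (pat_nonneg P) (pat_le P) k
  have h3 := hs.sum_le_tsum (Finset.range 1) (fun j _ => div_nonneg (pat_nonneg P _) (by positivity))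
  simp only [Finset.range_one, Finset.sum_singleton, add_zero, zero_add, pow_one] at h3
  refine le_trans (le_of_eq ?_) h3
  rw [pat, pat, if_neg h1, if_pos h2]
  norm_num

theorem pat_zero (P : Set ℕ) {M : ℕ} (h : ∀ n ≥ M, n ∉ P) :
    IsMultiInterval (achSet (seq (pat P))) := by
  refine multi (pat_nonneg P) (pat_le P) ?_
  filter_upwards [eventually_ge_atTop M] with k hk
  have h1 := tail_ge (pat_nonneg P) (pat_le P) k
  have h2 : ∀ j, pat P (k + 1 + j) / 4 ^ (j + 1) = 0 := fun j => by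
    rw [pat, if_neg (h _ (by omega)), zero_div]
  have h3 : (∑' j, pat P (k + 1 + j) / 4 ^ (j + 1)) = 0 := by simp only [h2, tsum_zero]
  rw [h3, mul_zero, sub_zero] at h1
  exact (seq_le (pat_nonneg P) k).trans h1

theorem pat_one (P : Set ℕ) {M : ℕ} (h : ∀ n ≥ M, n ∈ P) :
    IsMultiInterval (achSet (seq (pat P))) := by
  refine multi_of (pat_nonneg P) (pat_le P) (ε := 2 / 3) (by norm_num) ?_
  filter_upwards [eventually_ge_atTop M] with k hk
  have h1 := Pool.Agent.H53Ach.Seq.geo4 (1 / 4) (by norm_num) (by norm_num) 0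
  have h2 : (fun j => pat P (k + 1 + j) / 4 ^ (j + 1)) = fun j => (1 / 4 : ℝ) ^ (j + 0 + 1) := by
    funext j
    rw [pat, if_pos (h _ (by omega)), add_zero, one_div_pow]
  rw [h2, h1.tsum_eq, pat, if_pos (h _ hk)]
  norm_num

theorem switches (P : Set ℕ) {T N : ℕ} (hT : 0 < T) (hper : ∀ n ≥ N, n + T ∈ P ↔ n ∈ P)
    (hne : ¬ ∃ M, (∀ n ≥ M, n ∈ P) ∨ ∀ n ≥ M, n ∉ P) (R : ℕ) :
    ∃ᶠ n in atTop, ∃ F : Finset ℕ, R ≤ F.card ∧ ∀ k ∈ F,
      n ≤ k ∧ k ≤ 3 * n / 2 ∧ k ∉ P ∧ k + 1 ∈ P := by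
  push Not at hne
  obtain ⟨-, n₁, hn1, hn1'⟩ : True ∧ ∃ n ≥ N, n ∉ P := ⟨trivial, (hne N).1⟩
  obtain ⟨n₂, hn2, hn2'⟩ := (hne n₁).2
  obtain ⟨k₀, hk0, hk1, hk2⟩ : ∃ k, N ≤ k ∧ k ∉ P ∧ k + 1 ∈ P := by
    by_contra hcon
    push Not at hcon
    have : ∀ d, n₁ + d ∉ P := by
      intro d
      induction d with
      | zero => exact hn1'
      | succ d ih => exact hcon (n₁ + d) (by omega) ih
    obtain ⟨d, rfl⟩ := Nat.exists_eq_add_of_le hn2
    exact this d hn2'
  have hall : ∀ i, k₀ + i * T ∉ P ∧ k₀ + i * T + 1 ∈ P := by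
    intro i
    induction i with
    | zero => simpa using ⟨hk1, hk2⟩
    | succ i ih =>
      have h1 := hper (k₀ + i * T) (by nlinarith [Nat.zero_le (i * T)])
      have h2 := hper (k₀ + i * T + 1) (by nlinarith [Nat.zero_le (i * T)])
      rw [show k₀ + (i + 1) * T = k₀ + i * T + T by ring,
        show k₀ + i * T + T + 1 = k₀ + i * T + 1 + T by ring]
      exact ⟨fun h => ih.1 (h1.1 h), h2.2 ih.2⟩
  rw [frequently_atTop]
  intro a
  refine ⟨k₀ + (a + 2 * R) * T, ?_, (Finset.range R).image (fun i => k₀ + (a + 2 * R + i) * T),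
    ?_, ?_⟩
  · nlinarith
  · rw [Finset.card_image_of_injective _ (fun i j hij => ?_), Finset.card_range]
    have h1 : (a + 2 * R + i) * T = (a + 2 * R + j) * T := Nat.add_left_cancel hij
    have h2 := Nat.eq_of_mul_eq_mul_right hT h1
    omega
  · intro k hk
    obtain ⟨i, hi, rfl⟩ := Finset.mem_image.1 hk
    rw [Finset.mem_range] at hi
    refine ⟨?_, ?_, (hall _).1, (hall _).2⟩
    · have : (a + 2 * R + i) * T = (a + 2 * R) * T + i * T := by ring
      omega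
    · have h1 : (a + 2 * R + i) * T = a * T + 2 * (R * T) + i * T := by ring
      have h2 : (a + 2 * R) * T = a * T + 2 * (R * T) := by ring
      have h3 : i * T ≤ R * T := Nat.mul_le_mul_right _ hi.le
      rw [h1, h2]
      omega

/-- **The type of the achievement set of `1 / (2 ^ n + c n)`.** (1) A sufficient condition for a
Cantor set, for all bounded `c ≥ 0`. (2) A sufficient condition for a finite union of intervals.
(3) Its form for the sequences with the terms `1 / (2 ^ n + 1)`, `n ∈ P`, and `1 / 2 ^ n`, `n ∉ P`.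
(4) The complete classification for eventually periodic `P`: a Cantor set, unless `P` or its
complement is finite, and in the latter case a finite union of intervals and not a Cantor set.
(5) The measure is always positive. -/
theorem result :
    (∀ (c : ℕ → ℝ) (C ε : ℝ), (∀ n, 0 ≤ c n) → (∀ n, c n ≤ C) → 0 < ε →
      (∀ R : ℕ, ∃ᶠ n in atTop, ∃ F : Finset ℕ, R ≤ F.card ∧ ∀ k ∈ F,
        n ≤ k ∧ k ≤ 3 * n / 2 ∧ c k + ε ≤ ∑' j, c (k + 1 + j) / 4 ^ (j + 1)) →
      IsCantor (achSet (seq c))) ∧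
    (∀ (c : ℕ → ℝ) (C ε : ℝ), (∀ n, 0 ≤ c n) → (∀ n, c n ≤ C) → 0 < ε →
      (∀ᶠ k in atTop, ∑' j, c (k + 1 + j) / 4 ^ (j + 1) + ε ≤ c k) →
      IsMultiInterval (achSet (seq c))) ∧
    (∀ P : Set ℕ, (∀ R : ℕ, ∃ᶠ n in atTop, ∃ F : Finset ℕ, R ≤ F.card ∧ ∀ k ∈ F,
        n ≤ k ∧ k ≤ 3 * n / 2 ∧ k ∉ P ∧ k + 1 ∈ P) →
      IsCantor (achSet (seq (pat P)))) ∧
    (∀ (P : Set ℕ) (T N : ℕ), 0 < T → (∀ n ≥ N, n + T ∈ P ↔ n ∈ P) →
      (IsCantor (achSet (seq (pat P))) ↔ P.Infinite ∧ Pᶜ.Infinite) ∧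
      (IsMultiInterval (achSet (seq (pat P))) ↔ ¬ (P.Infinite ∧ Pᶜ.Infinite))) ∧
    (∀ (c : ℕ → ℝ) (C : ℝ), (∀ n, 0 ≤ c n) → (∀ n, c n ≤ C) → 0 < volume (achSet (seq c))) := by
  have h3 : ∀ P : Set ℕ, (∀ R : ℕ, ∃ᶠ n in atTop, ∃ F : Finset ℕ, R ≤ F.card ∧ ∀ k ∈ F,
        n ≤ k ∧ k ≤ 3 * n / 2 ∧ k ∉ P ∧ k + 1 ∈ P) →
      IsCantor (achSet (seq (pat P))) := by
    intro P hP
    refine cantorMain (pat_nonneg P) (pat_le P) (ε := 1 / 4) (by norm_num) (fun R => ?_)
    refine (hP R).mono ?_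
    rintro n ⟨F, hF1, hF2⟩
    exact ⟨F, hF1, fun k hk => ⟨(hF2 k hk).1, (hF2 k hk).2.1,
      pat_switch P (hF2 k hk).2.2.1 (hF2 k hk).2.2.2⟩⟩
  refine ⟨fun c C ε hc hC hε hR => cantorMain hc hC hε hR,
    fun c C ε hc hC hε hk => multi_of hc hC hε hk, h3, fun P T N hT hper => ?_,
    fun c C hc hC => vol_pos hc hC⟩
  by_cases hcase : P.Infinite ∧ Pᶜ.Infinite
  · have hne : ¬ ∃ M, (∀ n ≥ M, n ∈ P) ∨ ∀ n ≥ M, n ∉ P := by
      rintro ⟨M, h | h⟩
      · exact hcase.2 ((Set.finite_lt_nat M).subset (fun n hn => by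
          by_contra hlt
          exact hn (h n (not_lt.1 hlt))))
      · exact hcase.1 ((Set.finite_lt_nat M).subset (fun n hn => by
          by_contra hlt
          exact h n (not_lt.1 hlt) hn))
    have hcan := h3 P (switches P hT hper hne)
    exact ⟨⟨fun _ => hcase, fun _ => hcan⟩, ⟨fun hm => absurd hcan (not_cantor hm),
      fun h => absurd hcase h⟩⟩
  · have hm : IsMultiInterval (achSet (seq (pat P))) := by
      rw [not_and_or, Set.not_infinite, Set.not_infinite] at hcase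
      rcases hcase with h | h
      · obtain ⟨M, hM⟩ := h.bddAbove
        exact pat_zero P (M := M + 1) (fun n hn hmem => by
          have := hM hmem
          omega)
      · obtain ⟨M, hM⟩ := h.bddAbove
        exact pat_one P (M := M + 1) (fun n hn => by
          by_contra hmem
          have := hM (show n ∈ Pᶜ from hmem)
          omega)
    exact ⟨⟨fun h => absurd h (not_cantor hm), fun h => absurd h hcase⟩, ⟨fun _ => hcase, fun _ => hm⟩⟩

end Pool.Agent.Results.MP_1e50ba_an.PerturbationPatterns
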